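import Pool.Agent.Helper807.BT.Disc4

/-! Conversion of the two-weight testing theorem for the Bergman projection (Helper807.BT) to the
form of the frozen statement S03981. -/

set_option autoImplicit false

open MeasureTheory Set Filter
open scoped ENNReal NNReal Topology

namespace Pool.Agent.H439R3.BTconv

open Pool.Agent.Helper807.BT

/-- closed arc -/
def carc (θ l : ℝ) : Set ℂ :=
  {z | ∃ t ∈ Set.Icc θ (θ + 2 * Real.pi * l), z = Complex.exp ((t : ℂ) * Complex.I)}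

/-- the box of the frozen statement -/
def QQ (θ l : ℝ) : Set ℂ := {z : ℂ | z ≠ 0 ∧ ‖z‖ < 1 ∧ 1 - ‖z‖ ≤ l ∧
      ∃ t ∈ Set.Icc θ (θ + 2 * Real.pi * l), z / ((‖z‖ : ℝ) : ℂ) = Complex.exp ((t : ℂ) * Complex.I)}

theorem box_eq (θ l : ℝ) : carlesonBox (carc θ l) l = QQ θ l := by
  ext z
  simp only [carlesonBox, carc, QQ, Set.mem_ofPred_eq]
  tauto

theorem carc1 (a l : ℝ) (t : ℝ) (h1 : a ≤ t) (h2 : t ≤ a + l) :
    Complex.exp (2 * Real.pi * t * Complex.I) ∈ carc (2 * Real.pi * a) l := by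
  have hpi := Real.pi_pos
  refine ⟨2 * Real.pi * t, ⟨by nlinarith, by nlinarith⟩, ?_⟩
  push_cast
  rfl

theorem carc2 (a l : ℝ) (z : ℂ) (hz : z ∈ carc (2 * Real.pi * a) l) :
    ∃ t : ℝ, a ≤ t ∧ t ≤ a + l ∧ z = Complex.exp (2 * Real.pi * t * Complex.I) := by
  have hpi := Real.pi_pos
  obtain ⟨s, ⟨h1, h2⟩, h3⟩ := hz
  refine ⟨s / (2 * Real.pi), ?_, ?_, ?_⟩
  · rw [le_div_iff₀ (by positivity)]; nlinarith
  · rw [div_le_iff₀ (by positivity)]; nlinarith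
  · rw [h3]
    congr 2
    push_cast
    field_simp

theorem isArc_carc (a l : ℝ) (hl : 0 < l) (hl1 : l ≤ 1) : IsArc (carc (2 * Real.pi * a) l) l :=
  ⟨hl, hl1, a, fun t h1 h2 => carc1 a l t h1.le h2.le, fun z hz => carc2 a l z hz⟩

theorem QQ_ae (a l : ℝ) (hl : 0 < l) (hl1 : l ≤ 1) :
    ∀ᵐ z ∂areaD, (z ∈ QQ (2 * Real.pi * a) l ↔ z ∈ arcBox th ht a l) := by
  rw [← box_eq]
  exact box_ae hl hl1 (fun t h1 h2 => carc1 a l t h1.le h2.le) (fun z hz => carc2 a l z hz)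

/-- every nonzero point of the disc is in the full box -/
theorem mem_full {z : ℂ} (hz : ‖z‖ < 1) (hz0 : z ≠ 0) : z ∈ QQ 0 1 := by
  refine ⟨hz0, hz, by linarith [norm_nonneg z], ?_⟩
  have hn : (‖z‖ : ℂ) ≠ 0 := by simpa using hz0
  have hpi := Real.pi_pos
  refine ⟨2 * Real.pi * th z, ⟨?_, ?_⟩, ?_⟩
  · have := geoD.θ0 z
    positivity
  · have := (geoD.θ1 z).le
    nlinarith
  · rw [div_eq_iff hn, mul_comm]
    have := (norm_mul_exp_th z).symm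
    push_cast
    exact this

theorem ae_ne_zero : ∀ᵐ z ∂areaD, z ≠ 0 := by
  filter_upwards [ray_null 1] with z hz
  have := hz 0
  simpa using this

theorem sm_univ_eq {v : ℂ → ℝ} : sm v univ = ∫⁻ z, ENNReal.ofReal (v z) ∂areaD := by
  unfold sm
  rw [withDensity_apply _ MeasurableSet.univ, Measure.restrict_univ]

/-- a bound for the maximal function makes the target weight finite -/
theorem int_of_M {w σ : ℂ → ℝ} (hw : IsWeight w) (hσ : IsWeight σ)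
    (M : (ℂ → ℂ) → ℂ → ℝ≥0∞) (hM : ∀ (g : ℂ → ℂ) (x : ℂ), M g x =
      ⨆ (θ : ℝ) (l : ℝ) (_ : 0 < l ∧ l ≤ 1 ∧ x ∈ QQ θ l),
        (∫⁻ ζ in QQ θ l, ‖g ζ‖ₑ ∂areaD) / areaD (QQ θ l))
    (h : ∃ C : ℝ≥0, ∀ f : ℂ → ℂ, AEStronglyMeasurable f areaD →
      ∫⁻ z, ENNReal.ofReal (w z) * (M (fun ζ => (σ ζ : ℂ) * f ζ) z) ^ 2 ∂areaD
        ≤ (C : ℝ≥0∞) * ∫⁻ ζ, ENNReal.ofReal (σ ζ) * ‖f ζ‖ₑ ^ 2 ∂areaD) :
    Integrable w areaD := by
  classical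
  obtain ⟨C, hC⟩ := h
  set E := Metric.closedBall (0 : ℂ) (1 / 8) with hE
  have hEm : MeasurableSet E := Metric.isClosed_closedBall.measurableSet
  have hfm : AEStronglyMeasurable (E.indicator (1 : ℂ → ℂ)) areaD :=
    (measurable_one.indicator hEm).aestronglyMeasurable
  have h1 := hC _ hfm
  have hs0 : 0 < sm σ E := sm_ball_pos hσ
  have hs1 : sm σ E < ∞ := sm_ball_fin hσ (1 / 8) (by norm_num)
  have hR : ∫⁻ ζ, ENNReal.ofReal (σ ζ) * ‖E.indicator (1 : ℂ → ℂ) ζ‖ₑ ^ 2 ∂areaD = sm σ E := by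
    rw [← mass_eq E hEm, mass, ← lintegral_indicator hEm]
    refine lintegral_congr fun ζ => ?_
    by_cases hζ : ζ ∈ E
    · simp [hζ]
    · simp [hζ]
  have hL : ∫⁻ ζ, ‖(σ ζ : ℂ) * E.indicator (1 : ℂ → ℂ) ζ‖ₑ ∂areaD = sm σ E := by
    rw [← mass_eq E hEm, mass, ← lintegral_indicator hEm]
    refine lintegral_congr_ae ?_
    filter_upwards [ae_ball] with ζ hζ1
    by_cases hζ : ζ ∈ E
    · simp only [indicator_of_mem hζ, Pi.one_apply, mul_one]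
      rw [← ofReal_norm, Complex.norm_real, ofReal_norm, Real.enorm_eq_ofReal (hσ.pos ζ hζ1).le]
    · simp [hζ]
  have hfull : ∫⁻ ζ in QQ 0 1, ‖(σ ζ : ℂ) * E.indicator (1 : ℂ → ℂ) ζ‖ₑ ∂areaD = sm σ E := by
    rw [← hL]
    have : areaD.restrict (QQ 0 1) = areaD := by
      refine Measure.restrict_eq_self_of_ae_mem ?_
      filter_upwards [ae_ball, ae_ne_zero] with z hz hz0
      exact mem_full hz hz0
    rw [this]
  set c : ℝ≥0∞ := sm σ E / areaD univ with hc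
  have hc0 : c ≠ 0 := by
    rw [hc]
    exact (ENNReal.div_pos hs0.ne' (measure_ne_top _ _)).ne'
  have hlow : ∀ᵐ z ∂areaD, ENNReal.ofReal (w z) * c ^ 2 ≤
      ENNReal.ofReal (w z) * (M (fun ζ => (σ ζ : ℂ) * E.indicator (1 : ℂ → ℂ) ζ) z) ^ 2 := by
    filter_upwards [ae_ball, ae_ne_zero] with z hz hz0
    gcongr
    rw [hM]
    refine le_trans ?_ (le_iSup₂_of_le 0 1 (le_iSup_of_le ⟨one_pos, le_rfl, mem_full hz hz0⟩ le_rfl))
    rw [hfull, hc]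
    exact ENNReal.div_le_div_left (measure_mono (subset_univ _)) _
  have h2 : (∫⁻ z, ENNReal.ofReal (w z) ∂areaD) * c ^ 2 ≤ C * sm σ E := by
    calc (∫⁻ z, ENNReal.ofReal (w z) ∂areaD) * c ^ 2
        ≤ ∫⁻ z, ENNReal.ofReal (w z) * c ^ 2 ∂areaD := lintegral_mul_const_le _ _
      _ ≤ _ := lintegral_mono_ae hlow
      _ ≤ _ := h1
      _ = _ := by rw [hR]
  refine int_of_sm hw ?_
  rw [sm_univ_eq]
  by_contra hcon
  rw [not_lt, top_le_iff] at hcon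
  rw [hcon, ENNReal.top_mul (pow_ne_zero 2 hc0), top_le_iff] at h2
  exact (ENNReal.mul_lt_top ENNReal.coe_lt_top hs1).ne h2

/-- `σ f` is integrable for `f` in `L²(σ)` -/
theorem int_mul {σ : ℂ → ℝ} (hσ : IsWeight σ) (iσ : Integrable σ areaD) (f : ℂ → ℂ)
    (hf : AEStronglyMeasurable f areaD)
    (h : ∫⁻ ζ, ENNReal.ofReal (σ ζ) * ‖f ζ‖ₑ ^ 2 ∂areaD < ⊤) :
    Integrable (fun ζ => (σ ζ : ℂ) * f ζ) areaD := by
  refine ⟨(Complex.continuous_ofReal.comp_aestronglyMeasurable hσ.aesm).mul hf, ?_⟩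
  have h1 : ∫⁻ ζ, ENNReal.ofReal (σ ζ) ∂areaD < ⊤ := by
    have := iσ.2
    refine lt_of_le_of_lt (lintegral_mono fun z => ENNReal.ofReal_le_ofReal (le_abs_self _)) ?_
    simpa [HasFiniteIntegral, Real.enorm_eq_ofReal_abs] using this
  refine lt_of_le_of_lt (b := ∫⁻ ζ, (ENNReal.ofReal (σ ζ) + ENNReal.ofReal (σ ζ) * ‖f ζ‖ₑ ^ 2) ∂areaD)
    (lintegral_mono_ae ?_) ?_
  · filter_upwards [ae_ball] with ζ hζ
    have e : ‖(σ ζ : ℂ) * f ζ‖ₑ = ENNReal.ofReal (σ ζ) * ‖f ζ‖ₑ := by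
      rw [enorm_mul]
      congr 1
      rw [← ofReal_norm, Complex.norm_real, ofReal_norm, Real.enorm_eq_ofReal (hσ.pos ζ hζ).le]
    rw [e]
    have : ‖f ζ‖ₑ ≤ 1 + ‖f ζ‖ₑ ^ 2 := by
      rcases le_total (‖f ζ‖ₑ) 1 with h2 | h2
      · exact h2.trans le_self_add
      · refine le_trans ?_ le_add_self
        calc ‖f ζ‖ₑ = ‖f ζ‖ₑ * 1 := (mul_one _).symm
          _ ≤ ‖f ζ‖ₑ * ‖f ζ‖ₑ := by gcongr
          _ = _ := (sq _).symm
    calc ENNReal.ofReal (σ ζ) * ‖f ζ‖ₑ ≤ ENNReal.ofReal (σ ζ) * (1 + ‖f ζ‖ₑ ^ 2) := by gcongr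
      _ = _ := by rw [mul_add, mul_one]
  · rw [lintegral_add_left' hσ.aem]
    exact ENNReal.add_lt_top.2 ⟨h1, h⟩

theorem normL2_eq' (v : ℂ → ℝ) (F : ℂ → ℂ) :
    normL2 v F = (∫⁻ z, ENNReal.ofReal (v z) * ‖F z‖ₑ ^ 2 ∂areaD) ^ (1 / 2 : ℝ) := by
  unfold normL2
  congr 2
  funext z
  rw [mul_comm]

theorem ind_int {v : ℂ → ℝ} (iv : Integrable v areaD) {I : Set ℂ} {l : ℝ} (hI : IsArc I l) :
    BergDefined ((carlesonBox I l).indicator (fun ζ => (v ζ : ℂ))) := by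
  obtain ⟨hl, hl1, a, ha1, ha2⟩ := hI
  have hbox := box_ae hl hl1 ha1 ha2
  refine bergDefined_of_integrable ?_
  have h1 : Integrable ((arcBox th ht a l).indicator (fun ζ => (v ζ : ℂ))) areaD :=
    (iv.ofReal (𝕜 := ℂ)).indicator (meas_arcBox a l)
  refine h1.congr ?_
  filter_upwards [hbox] with ζ hζ
  by_cases h : ζ ∈ arcBox th ht a l
  · rw [indicator_of_mem h, indicator_of_mem (hζ.mpr h)]
  · rw [indicator_of_notMem h, indicator_of_notMem (fun h2 => h (hζ.mp h2))]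

theorem one_side {v u : ℂ → ℝ} (C₀ : ℝ≥0) {I : Set ℂ} {l a : ℝ}
    (hbox : ∀ᵐ z ∂areaD, (z ∈ carlesonBox I l ↔ z ∈ QQ (2 * Real.pi * a) l))
    (h : ∫⁻ z, ENNReal.ofReal (u z) *
        ‖bergP ((QQ (2 * Real.pi * a) l).indicator (fun ξ => (v ξ : ℂ))) z‖ₑ ^ 2 ∂areaD
          ≤ (C₀ : ℝ≥0∞) * ∫⁻ ζ in QQ (2 * Real.pi * a) l, ENNReal.ofReal (v ζ) ∂areaD) :
    normL2 u (bergP ((carlesonBox I l).indicator (fun ζ => (v ζ : ℂ)))) ≤
        ENNReal.ofReal (√C₀) * mass v (carlesonBox I l) ^ (1 / 2 : ℝ) := by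
  have e1 : bergP ((carlesonBox I l).indicator (fun ζ => (v ζ : ℂ))) =
      bergP ((QQ (2 * Real.pi * a) l).indicator (fun ξ => (v ξ : ℂ))) := by
    funext z
    refine bergP_congr ?_ z
    filter_upwards [hbox] with ζ hζ
    by_cases h : ζ ∈ QQ (2 * Real.pi * a) l
    · rw [indicator_of_mem h, indicator_of_mem (hζ.mpr h)]
    · rw [indicator_of_notMem h, indicator_of_notMem (fun h2 => h (hζ.mp h2))]
  rw [e1, mass_congr hbox, normL2_eq']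
  refine half_of_sq (Real.sqrt_nonneg _) ?_
  rw [Real.sq_sqrt (NNReal.coe_nonneg _), ENNReal.ofReal_coe_nnreal]
  exact h

/-- the theorem for integrable weights in the form of the frozen statement -/
theorem main {w σ : ℂ → ℝ} (hw : IsWeight w) (hσ : IsWeight σ) (iw : Integrable w areaD)
    (iσ : Integrable σ areaD) :
    (∃ C : ℝ≥0, ∀ f : ℂ → ℂ, AEStronglyMeasurable f areaD →
        Integrable (fun ζ => (σ ζ : ℂ) * f ζ) areaD →
        ∫⁻ ζ, ENNReal.ofReal (σ ζ) * ‖f ζ‖ₑ ^ 2 ∂areaD < ⊤ →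
        ∫⁻ z, ENNReal.ofReal (w z) * ‖bergP (fun ζ => (σ ζ : ℂ) * f ζ) z‖ₑ ^ 2 ∂areaD
          ≤ (C : ℝ≥0∞) * ∫⁻ ζ, ENNReal.ofReal (σ ζ) * ‖f ζ‖ₑ ^ 2 ∂areaD)
      ↔
     (∃ C₀ : ℝ≥0, ∀ θ l : ℝ, 0 < l → l ≤ 1 →
        (∫⁻ z, ENNReal.ofReal (w z) *
            ‖bergP ((QQ θ l).indicator (fun ξ => (σ ξ : ℂ))) z‖ₑ ^ 2 ∂areaD
          ≤ (C₀ : ℝ≥0∞) * ∫⁻ ζ in QQ θ l, ENNReal.ofReal (σ ζ) ∂areaD) ∧
        (∫⁻ z, ENNReal.ofReal (σ z) *
            ‖bergP ((QQ θ l).indicator (fun ξ => (w ξ : ℂ))) z‖ₑ ^ 2 ∂areaD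
          ≤ (C₀ : ℝ≥0∞) * ∫⁻ ζ in QQ θ l, ENNReal.ofReal (w ζ) ∂areaD)) := by
  have hpi := Real.pi_pos
  constructor
  · rintro ⟨C, hC⟩
    have hB : CondB w σ := by
      refine ⟨√C, fun f hf hf2 => ?_⟩
      have hf3 : ∫⁻ ζ, ENNReal.ofReal (σ ζ) * ‖f ζ‖ₑ ^ 2 ∂areaD < ⊤ := by
        rw [normL2_eq'] at hf2
        by_contra hcon
        rw [not_lt, top_le_iff] at hcon
        rw [hcon, ENNReal.top_rpow_of_pos (by norm_num)] at hf2
        exact lt_irrefl _ hf2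
      have hi := int_mul hσ iσ f hf hf3
      refine ⟨bergDefined_of_integrable hi, ?_⟩
      rw [normL2_eq', normL2_eq']
      refine half_of_sq (Real.sqrt_nonneg _) ?_
      rw [Real.sq_sqrt (NNReal.coe_nonneg _), ENNReal.ofReal_coe_nnreal]
      exact hC f hf hi hf3
    obtain ⟨C0, hT⟩ := (B_iff_T w σ hw hσ).1 hB
    refine ⟨Real.toNNReal ((max C0 0) ^ 2), fun θ l hl hl1 => ?_⟩
    have hθ : 2 * Real.pi * (θ / (2 * Real.pi)) = θ := by field_simp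
    have hT1 := hT (carc (2 * Real.pi * (θ / (2 * Real.pi))) l) l (isArc_carc _ l hl hl1)
    rw [hθ, box_eq, normL2_eq', normL2_eq', ← ofReal_max C0] at hT1
    exact ⟨sq_of_half (le_max_right _ _) hT1.1.2, sq_of_half (le_max_right _ _) hT1.2.2⟩
  · rintro ⟨C₀, hT⟩
    have hTT : CondT w σ := by
      refine ⟨√C₀, fun I l hI => ?_⟩
      have hI' := hI
      obtain ⟨hl, hl1, a, ha1, ha2⟩ := hI
      have hbox : ∀ᵐ z ∂areaD, (z ∈ carlesonBox I l ↔ z ∈ QQ (2 * Real.pi * a) l) := by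
        filter_upwards [box_ae hl hl1 ha1 ha2, QQ_ae a l hl hl1] with z h1 h2
        exact h1.trans h2.symm
      obtain ⟨h1, h2⟩ := hT (2 * Real.pi * a) l hl hl1
      exact ⟨⟨ind_int iσ hI', one_side C₀ hbox h1⟩, ⟨ind_int iw hI', one_side C₀ hbox h2⟩⟩
    obtain ⟨C, hB⟩ := (B_iff_T w σ hw hσ).2 hTT
    refine ⟨Real.toNNReal ((max C 0) ^ 2), fun f hf _ hf3 => ?_⟩
    have h1 := (hB f hf (by rw [normL2_eq']; exact half_lt_top hf3)).2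
    rw [normL2_eq', normL2_eq', ← ofReal_max C] at h1
    exact sq_of_half (le_max_right _ _) h1

end Pool.Agent.H439R3.BTconv
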