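import Pool.Agent.H604R2.SW.Final

/-!
# The mean width of simplices in the unit ball: support functions of convex hulls
-/

set_option autoImplicit false

namespace Pool.Agent.H439R3.SMW

open MeasureTheory Set
open Pool.Agent.H604R2.SW

/-- The support function `h_K(u) = sup_{x ∈ K} ⟨x, u⟩`. -/
noncomputable def support {n : ℕ} (K : Set (EuclideanSpace ℝ (Fin n)))
    (u : EuclideanSpace ℝ (Fin n)) : ℝ :=
  sSup ((fun x => inner ℝ x u) '' K)

/-- The rotation-invariant probability measure on the unit sphere (the normalised surface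
measure). -/
noncomputable def sphereMeasure (n : ℕ) :
    Measure (Metric.sphere (0 : EuclideanSpace ℝ (Fin n)) 1) :=
  ((Measure.toSphere (volume : Measure (EuclideanSpace ℝ (Fin n)))) univ)⁻¹ •
    Measure.toSphere (volume : Measure (EuclideanSpace ℝ (Fin n)))

/-- The mean width `w(K) = ∫ (h_K(u) + h_K(-u)) dσ(u)`. -/
noncomputable def meanWidth {n : ℕ} (K : Set (EuclideanSpace ℝ (Fin n))) : ℝ :=
  ∫ u : Metric.sphere (0 : EuclideanSpace ℝ (Fin n)) 1,
    (support K (u : EuclideanSpace ℝ (Fin n)) + support K (-(u : EuclideanSpace ℝ (Fin n))))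
    ∂(sphereMeasure n)

theorem support_hull {n m : ℕ} (x : Fin (m + 1) → EuclideanSpace ℝ (Fin n))
    (u : EuclideanSpace ℝ (Fin n)) :
    support (convexHull ℝ (range x)) u = ⨆ i, inner ℝ (x i) u := by
  unfold support
  have hb : BddAbove (range fun i => inner ℝ (x i) u) := (Set.finite_range _).bddAbove
  have hle : ∀ y ∈ convexHull ℝ (range x), inner ℝ y u ≤ ⨆ i, inner ℝ (x i) u := by
    intro y hy
    have hc : Convex ℝ {y : EuclideanSpace ℝ (Fin n) | inner ℝ y u ≤ ⨆ i, inner ℝ (x i) u} := by
      intro a ha b hb' s t hs ht hst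
      simp only [mem_ofPred_eq] at ha hb' ⊢
      rw [inner_add_left, real_inner_smul_left, real_inner_smul_left]
      calc s * inner ℝ a u + t * inner ℝ b u
          ≤ s * (⨆ i, inner ℝ (x i) u) + t * (⨆ i, inner ℝ (x i) u) :=
            add_le_add (mul_le_mul_of_nonneg_left ha hs) (mul_le_mul_of_nonneg_left hb' ht)
        _ = ⨆ i, inner ℝ (x i) u := by rw [← add_mul, hst, one_mul]
    exact convexHull_min (by rintro _ ⟨i, rfl⟩; exact le_ciSup hb i) hc hy
  apply le_antisymm
  · refine csSup_le ?_ ?_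
    · exact ⟨_, x 0, subset_convexHull ℝ _ ⟨0, rfl⟩, rfl⟩
    · rintro _ ⟨y, hy, rfl⟩
      exact hle y hy
  · refine ciSup_le fun i => le_csSup ⟨⨆ i, inner ℝ (x i) u, ?_⟩ ⟨x i, subset_convexHull ℝ _ ⟨i, rfl⟩, rfl⟩
    rintro _ ⟨y, hy, rfl⟩
    exact hle y hy

theorem continuous_sup {n m : ℕ} (x : Fin (m + 1) → EuclideanSpace ℝ (Fin n)) :
    Continuous fun u : EuclideanSpace ℝ (Fin n) => ⨆ i, inner ℝ (x i) u := by
  have h : (fun u : EuclideanSpace ℝ (Fin n) => ⨆ i, inner ℝ (x i) u) =
      fun u => Finset.univ.sup' Finset.univ_nonempty (fun i => inner ℝ (x i) u) := by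
    funext u
    rw [Finset.sup'_univ_eq_ciSup]
  rw [h]
  exact Continuous.finset_sup'_apply _ fun i _ => continuous_const.inner continuous_id

theorem integrable_sup {n m : ℕ} (x : Fin (m + 1) → EuclideanSpace ℝ (Fin n)) :
    Integrable (fun u : Metric.sphere (0 : EuclideanSpace ℝ (Fin n)) 1 =>
      ⨆ i, inner ℝ (x i) (u : EuclideanSpace ℝ (Fin n)))
      (Measure.toSphere (volume : Measure (EuclideanSpace ℝ (Fin n)))) :=
  Continuous.integrable_of_hasCompactSupport ((continuous_sup x).comp continuous_subtype_val)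
    (HasCompactSupport.of_compactSpace _)

/-- `∫ h dσ` of both signs -/
theorem meanWidth_hull {n m : ℕ} (x : Fin (m + 1) → EuclideanSpace ℝ (Fin n)) :
    meanWidth (convexHull ℝ (range x)) =
      ((Measure.toSphere (volume : Measure (EuclideanSpace ℝ (Fin n)))) univ)⁻¹.toReal *
      ((∫ u : Metric.sphere (0 : EuclideanSpace ℝ (Fin n)) 1,
          (⨆ i, inner ℝ (x i) (u : EuclideanSpace ℝ (Fin n)))
          ∂(Measure.toSphere (volume : Measure (EuclideanSpace ℝ (Fin n))))) +
        ∫ u : Metric.sphere (0 : EuclideanSpace ℝ (Fin n)) 1,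
          (⨆ i, inner ℝ (-x i) (u : EuclideanSpace ℝ (Fin n)))
          ∂(Measure.toSphere (volume : Measure (EuclideanSpace ℝ (Fin n))))) := by
  unfold meanWidth sphereMeasure
  rw [integral_smul_measure, smul_eq_mul, ← integral_add (integrable_sup x)
    (integrable_sup fun i => -x i)]
  congr 1
  refine integral_congr_ae (Filter.Eventually.of_forall fun u => ?_)
  simp only [support_hull, inner_neg_right, inner_neg_left]

/-- the theorem for points of the unit sphere -/
theorem sphere_le {n : ℕ} (hn : 2 ≤ n) (x y : Fin (n + 1) → EuclideanSpace ℝ (Fin n))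
    (hx : ∀ i, ‖x i‖ = 1) (hy : ∀ i, ‖y i‖ = 1)
    (hyy : ∀ i j, i ≠ j → inner ℝ (y i) (y j) = -1 / (n : ℝ)) :
    meanWidth (convexHull ℝ (range x)) ≤ meanWidth (convexHull ℝ (range y)) := by
  rw [meanWidth_hull, meanWidth_hull]
  refine mul_le_mul_of_nonneg_left (add_le_add ?_ ?_) ENNReal.toReal_nonneg
  · exact f_09365 n hn x y hx hy hyy
  · exact f_09365 n hn (fun i => -x i) (fun i => -y i) (fun i => by rw [norm_neg, hx i])
      (fun i => by rw [norm_neg, hy i]) (fun i j hij => by rw [inner_neg_neg, hyy i j hij])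

/-- integral of the support function over the sphere -/
noncomputable def J {d : ℕ} (v : Fin (d + 1) → EuclideanSpace ℝ (Fin d)) : ℝ :=
  ∫ u : Metric.sphere (0 : EuclideanSpace ℝ (Fin d)) 1, S12723_f v (u : EuclideanSpace ℝ (Fin d))
    ∂(Measure.toSphere (volume : Measure (EuclideanSpace ℝ (Fin d))))

theorem J_int {d : ℕ} (v : Fin (d + 1) → EuclideanSpace ℝ (Fin d)) :
    Integrable (fun u : Metric.sphere (0 : EuclideanSpace ℝ (Fin d)) 1 =>
      S12723_f v (u : EuclideanSpace ℝ (Fin d)))
      (Measure.toSphere (volume : Measure (EuclideanSpace ℝ (Fin d)))) :=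
  integrable_sup v

/-- the theorem for points of the unit ball -/
theorem J_le {d : ℕ} (hd : 2 ≤ d) (v w : Fin (d + 1) → EuclideanSpace ℝ (Fin d))
    (hv : ∀ i, ‖v i‖ ≤ 1) (hw : ∀ i, ‖w i‖ = 1)
    (hww : ∀ i j, i ≠ j → inner ℝ (w i) (w j) = -1 / (d : ℝ)) : J v ≤ J w := by
  have key : ∀ (S : Finset (Fin (d + 1))) (v : Fin (d + 1) → EuclideanSpace ℝ (Fin d)),
      (∀ i, ‖v i‖ ≤ 1) → (∀ i, i ∉ S → ‖v i‖ = 1) → J v ≤ J w := by
    intro S
    induction S using Finset.induction_on with
    | empty =>
      exact fun v _ hv => f_09365 d hd v w (fun i => hv i (Finset.notMem_empty i)) hw hww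
    | insert i S hi ih =>
      intro v hv hvS
      obtain ⟨u, hu, huv⟩ : ∃ u : EuclideanSpace ℝ (Fin d), ‖u‖ = 1 ∧ v i = ‖v i‖ • u := by
        by_cases h0 : v i = 0
        · refine ⟨EuclideanSpace.single ⟨0, by omega⟩ 1, by simp, ?_⟩
          rw [h0, norm_zero, zero_smul]
        · refine ⟨(‖v i‖⁻¹) • v i, ?_, ?_⟩
          · rw [norm_smul, norm_inv, norm_norm, inv_mul_cancel₀ (norm_ne_zero_iff.2 h0)]
          · rw [smul_smul, mul_inv_cancel₀ (norm_ne_zero_iff.2 h0), one_smul]
      have hn := hv i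
      have hn0 := norm_nonneg (v i)
      have hcomb : v i = ((1 + ‖v i‖) / 2) • u + (1 - (1 + ‖v i‖) / 2) • (-u) := by
        rw [smul_neg, ← sub_eq_add_neg, ← sub_smul]
        conv_lhs => rw [huv]
        congr 1
        ring
      have hup : ∀ a : EuclideanSpace ℝ (Fin d), ‖a‖ = 1 → J (Function.update v i a) ≤ J w := by
        intro a ha
        refine ih _ (fun j => ?_) fun j hj => ?_
        · by_cases hji : j = i
          · subst hji
            rw [Function.update_self, ha]
          · rw [Function.update_of_ne hji]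
            exact hv j
        · by_cases hji : j = i
          · subst hji
            rw [Function.update_self, ha]
          · rw [Function.update_of_ne hji]
            exact hvS j fun h => by
              rcases Finset.mem_insert.1 h with h | h
              · exact hji h
              · exact hj h
      have h3 : J v ≤ ∫ u' : Metric.sphere (0 : EuclideanSpace ℝ (Fin d)) 1,
            ((1 + ‖v i‖) / 2 * S12723_f (Function.update v i u) (u' : EuclideanSpace ℝ (Fin d)) +
              (1 - (1 + ‖v i‖) / 2) *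
                S12723_f (Function.update v i (-u)) (u' : EuclideanSpace ℝ (Fin d)))
            ∂(Measure.toSphere (volume : Measure (EuclideanSpace ℝ (Fin d)))) :=
        integral_mono (J_int v)
          (((J_int _).const_mul _).add ((J_int _).const_mul _))
          fun x => S12723_conv v i u (-u) _ (by linarith) (by linarith) hcomb x
      rw [integral_add ((J_int _).const_mul _) ((J_int _).const_mul _),
        integral_const_mul, integral_const_mul] at h3
      have h4 := mul_le_mul_of_nonneg_left (hup u hu)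
        (show 0 ≤ (1 + ‖v i‖) / 2 by linarith)
      have h5 := mul_le_mul_of_nonneg_left (hup (-u) (by rw [norm_neg, hu]))
        (show 0 ≤ 1 - (1 + ‖v i‖) / 2 by linarith)
      unfold J at h4 h5 ⊢
      unfold J at h3
      linarith
  exact key Finset.univ v hv fun i hi => absurd (Finset.mem_univ i) hi

theorem ball_le {n : ℕ} (hn : 2 ≤ n) (x y : Fin (n + 1) → EuclideanSpace ℝ (Fin n))
    (hx : ∀ i, ‖x i‖ ≤ 1) (hy : ∀ i, ‖y i‖ = 1)
    (hyy : ∀ i j, i ≠ j → inner ℝ (y i) (y j) = -1 / (n : ℝ)) :
    meanWidth (convexHull ℝ (range x)) ≤ meanWidth (convexHull ℝ (range y)) := by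
  rw [meanWidth_hull, meanWidth_hull]
  refine mul_le_mul_of_nonneg_left (add_le_add ?_ ?_) ENNReal.toReal_nonneg
  · exact J_le hn x y hx hy hyy
  · exact J_le hn (fun i => -x i) (fun i => -y i) (fun i => by rw [norm_neg]; exact hx i)
      (fun i => by rw [norm_neg, hy i]) (fun i j hij => by rw [inner_neg_neg, hyy i j hij])

end Pool.Agent.H439R3.SMW
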